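import Pool.Agent.K1H44.AL.Plan

/-! Project AL, piece BALL: soundness of the ball arithmetic. -/

set_option autoImplicit false

namespace Pool.Agent.K1H28.AL

open Pool.Agent.K1H44.AL Pool.Agent.R751.Flower

theorem fN_eq {α : Type} (n : ℕ) (f : ℕ → α) : fN n f = f n := by
  cases n <;> rfl

theorem fZ_eq {α : Type} (z : ℤ) (f : ℤ → α) : fZ z f = f z := by
  cases z with
  | ofNat n => exact fN_eq n fun m => f (Int.ofNat m)
  | negSucc n => exact fN_eq n fun m => f (Int.negSucc m)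

theorem fB_eq {α : Type} (w : CB) (f : CB → α) : fB w f = f w := by
  unfold fB
  rw [fZ_eq, fZ_eq, fN_eq]

/-- the centre of a ball -/
noncomputable def cen (w : CB) : ℂ := ((w.a : ℤ) : ℂ) + ((w.b : ℤ) : ℂ) * Complex.I

theorem In_iff (z : ℂ) (w : CB) : In z w ↔ ‖((PP : ℤ) : ℂ) * z - cen w‖ ≤ (w.e : ℝ) := Iff.rfl

theorem norm_ri (x y : ℝ) : ‖(x : ℂ) + (y : ℂ) * Complex.I‖ ≤ |x| + |y| := by
  refine (norm_add_le _ _).trans ?_
  rw [norm_mul, Complex.norm_I, mul_one, Complex.norm_real, Complex.norm_real, Real.norm_eq_abs,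
    Real.norm_eq_abs]

theorem norm_cen (w : CB) : ‖cen w‖ ≤ ((w.a.natAbs + w.b.natAbs : ℕ) : ℝ) := by
  have h1 := norm_ri (w.a : ℝ) (w.b : ℝ)
  have h2 : cen w = ((w.a : ℝ) : ℂ) + ((w.b : ℝ) : ℂ) * Complex.I := by
    unfold cen; push_cast; rfl
  rw [h2]
  refine h1.trans ?_
  rw [Nat.cast_add, Nat.cast_natAbs, Nat.cast_natAbs]
  push_cast
  exact le_refl _

theorem floor_err' (m : ℤ) (n : ℕ) (hn : 0 < n) :
    |((m : ℤ) : ℝ) / (n : ℝ) - ((m / (n : ℤ) : ℤ) : ℝ)| ≤ 1 := by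
  have hP : (0 : ℝ) < n := by exact_mod_cast hn
  have hPZ : (0 : ℤ) < n := by exact_mod_cast hn
  have h1 : (m : ℝ) = (n : ℝ) * ((m / (n : ℤ) : ℤ) : ℝ) + ((m % (n : ℤ) : ℤ) : ℝ) := by
    have := (Int.mul_ediv_add_emod m n).symm
    exact_mod_cast this
  have h2 : (0 : ℝ) ≤ ((m % (n : ℤ) : ℤ) : ℝ) := by exact_mod_cast Int.emod_nonneg m hPZ.ne'
  have h3 : ((m % (n : ℤ) : ℤ) : ℝ) ≤ (n : ℝ) := by
    exact_mod_cast (Int.emod_lt_of_pos m hPZ).le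
  have h4 : ((m : ℤ) : ℝ) / (n : ℝ) - ((m / (n : ℤ) : ℤ) : ℝ) =
      ((m % (n : ℤ) : ℤ) : ℝ) / (n : ℝ) := by
    rw [h1]; field_simp; ring
  rw [h4, abs_of_nonneg (by positivity), div_le_one hP]
  exact h3

theorem nfloor_err' (m : ℕ) (n : ℕ) (hn : 0 < n) :
    ((m : ℕ) : ℝ) / (n : ℝ) ≤ ((m / n : ℕ) : ℝ) + 1 := by
  have hP : (0 : ℝ) < n := by exact_mod_cast hn
  have h1 : (m : ℝ) = (n : ℝ) * ((m / n : ℕ) : ℝ) + ((m % n : ℕ) : ℝ) := by
    exact_mod_cast (Nat.div_add_mod m n).symm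
  have h3 : ((m % n : ℕ) : ℝ) ≤ (n : ℝ) := by exact_mod_cast (Nat.mod_lt m hn).le
  rw [div_le_iff₀ hP]
  nlinarith

theorem In_add (z z' : ℂ) (u v : CB) (hu : In z u) (hv : In z' v) : In (z + z') (add u v) := by
  rw [In_iff] at *
  have h1 : ((PP : ℤ) : ℂ) * (z + z') - cen (add u v) =
      (((PP : ℤ) : ℂ) * z - cen u) + (((PP : ℤ) : ℂ) * z' - cen v) := by
    unfold cen add; push_cast; ring
  have h2 : (((add u v).e : ℕ) : ℝ) = (u.e : ℝ) + v.e := by unfold add; push_cast; rfl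
  rw [h1, h2]
  exact (norm_add_le _ _).trans (add_le_add hu hv)

theorem In_sub (z z' : ℂ) (u v : CB) (hu : In z u) (hv : In z' v) : In (z - z') (sub u v) := by
  rw [In_iff] at *
  have h1 : ((PP : ℤ) : ℂ) * (z - z') - cen (sub u v) =
      (((PP : ℤ) : ℂ) * z - cen u) - (((PP : ℤ) : ℂ) * z' - cen v) := by
    unfold cen sub; push_cast; ring
  have h2 : (((sub u v).e : ℕ) : ℝ) = (u.e : ℝ) + v.e := by unfold sub; push_cast; rfl
  rw [h1, h2]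
  exact (norm_sub_le _ _).trans (add_le_add hu hv)

theorem In_smul (c : ℕ) (z : ℂ) (u : CB) (hu : In z u) : In (c * z) (smul c u) := by
  rw [In_iff] at *
  have h1 : ((PP : ℤ) : ℂ) * (c * z) - cen (smul c u) = (c : ℂ) * (((PP : ℤ) : ℂ) * z - cen u) := by
    unfold cen smul; push_cast; ring
  have h2 : (((smul c u).e : ℕ) : ℝ) = (c : ℝ) * u.e := by unfold smul; push_cast; rfl
  rw [h1, h2, norm_mul, Complex.norm_natCast]
  exact mul_le_mul_of_nonneg_left hu (Nat.cast_nonneg _)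

theorem In_divN (n : ℕ) (z : ℂ) (u : CB) (hn : 0 < n) (hu : In z u) : In (z / n) (divN u n) := by
  rw [In_iff] at *
  have hP : (0 : ℝ) < n := by exact_mod_cast hn
  have hPc : (n : ℂ) ≠ 0 := by exact_mod_cast hn.ne'
  have h1 : ((PP : ℤ) : ℂ) * (z / n) - cen (divN u n) =
      (((PP : ℤ) : ℂ) * z - cen u) / n +
      (((((u.a : ℤ) : ℝ) / (n : ℝ) - ((u.a / (n : ℤ) : ℤ) : ℝ) : ℝ) : ℂ) +
        ((((u.b : ℤ) : ℝ) / (n : ℝ) - ((u.b / (n : ℤ) : ℤ) : ℝ) : ℝ) : ℂ) * Complex.I) := by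
    simp only [cen, divN]
    push_cast
    field_simp
    ring
  have h2 : (((divN u n).e : ℕ) : ℝ) = ((u.e / n : ℕ) : ℝ) + 3 := by
    simp only [divN]; push_cast; rfl
  rw [h1, h2]
  refine (norm_add_le _ _).trans ?_
  have h3 : ‖(((PP : ℤ) : ℂ) * z - cen u) / n‖ ≤ (u.e : ℝ) / n := by
    rw [norm_div, Complex.norm_natCast]
    exact div_le_div_of_nonneg_right hu hP.le
  have h4 := norm_ri (((u.a : ℤ) : ℝ) / (n : ℝ) - ((u.a / (n : ℤ) : ℤ) : ℝ))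
    (((u.b : ℤ) : ℝ) / (n : ℝ) - ((u.b / (n : ℤ) : ℤ) : ℝ))
  have h5 := floor_err' u.a n hn
  have h6 := floor_err' u.b n hn
  have h7 := nfloor_err' u.e n hn
  linarith

theorem In_gm (z z' : ℂ) (u v : CB) (hu : In z u) (hv : In z' v) : In (z * z') (gm u v) := by
  rw [In_iff] at *
  have hP := PP_pos
  have hPc : ((PP : ℤ) : ℂ) ≠ 0 := by
    have : ((PP : ℤ) : ℝ) ≠ 0 := hP.ne'
    exact_mod_cast this
  have hnP : ‖((PP : ℤ) : ℂ)‖ = ((PP : ℤ) : ℝ) := by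
    rw [show ((PP : ℤ) : ℂ) = (((PP : ℤ) : ℝ) : ℂ) by push_cast; rfl, Complex.norm_real,
      Real.norm_eq_abs, abs_of_pos hP]
  have hround : ‖cen u * cen v / ((PP : ℤ) : ℂ) - cen (gm u v)‖ ≤ 2 := by
    have e1 : cen u * cen v / ((PP : ℤ) : ℂ) - cen (gm u v) =
        ((((u.a * v.a - u.b * v.b : ℤ) : ℝ) / ((PP : ℤ) : ℝ) -
          (((u.a * v.a - u.b * v.b) / PP : ℤ) : ℝ) : ℝ) : ℂ) +
        ((((u.a * v.b + u.b * v.a : ℤ) : ℝ) / ((PP : ℤ) : ℝ) -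
          (((u.a * v.b + u.b * v.a) / PP : ℤ) : ℝ) : ℝ) : ℂ) * Complex.I := by
      simp only [cen, gm]
      push_cast
      field_simp
      ring_nf
      rw [Complex.I_sq]
      ring
    rw [e1]
    refine (norm_ri _ _).trans ?_
    linarith [floor_err (u.a * v.a - u.b * v.b), floor_err (u.a * v.b + u.b * v.a)]
  have hmain : ((PP : ℤ) : ℂ) * (z * z') - cen (gm u v) =
      z * (((PP : ℤ) : ℂ) * z' - cen v) + (((PP : ℤ) : ℂ) * z - cen u) * cen v / ((PP : ℤ) : ℂ) +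
        (cen u * cen v / ((PP : ℤ) : ℂ) - cen (gm u v)) := by
    field_simp
    ring
  have hz : ‖z‖ ≤ (((u.a.natAbs + u.b.natAbs : ℕ) : ℝ) + u.e) / ((PP : ℤ) : ℝ) := by
    rw [le_div_iff₀ hP]
    have h1 : ‖z‖ * ((PP : ℤ) : ℝ) = ‖((PP : ℤ) : ℂ) * z‖ := by
      rw [norm_mul, hnP, mul_comm]
    rw [h1]
    have h2 : ((PP : ℤ) : ℂ) * z = cen u + (((PP : ℤ) : ℂ) * z - cen u) := by ring
    rw [h2]
    exact (norm_add_le _ _).trans (add_le_add (norm_cen u) hu)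
  have hn1 : ‖z * (((PP : ℤ) : ℂ) * z' - cen v)‖ ≤
      (((u.a.natAbs + u.b.natAbs : ℕ) : ℝ) + u.e) * v.e / ((PP : ℤ) : ℝ) := by
    rw [norm_mul]
    refine (mul_le_mul hz hv (norm_nonneg _) (by positivity)).trans (le_of_eq ?_)
    ring
  have hn2 : ‖(((PP : ℤ) : ℂ) * z - cen u) * cen v / ((PP : ℤ) : ℂ)‖ ≤
      (u.e : ℝ) * ((v.a.natAbs + v.b.natAbs : ℕ) : ℝ) / ((PP : ℤ) : ℝ) := by
    rw [norm_div, norm_mul, hnP]
    refine div_le_div_of_nonneg_right ?_ hP.le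
    exact mul_le_mul hu (norm_cen v) (norm_nonneg _) (Nat.cast_nonneg _)
  have h5 := nfloor_err ((u.a.natAbs + u.b.natAbs + u.e) * v.e + (v.a.natAbs + v.b.natAbs) * u.e)
  have h6 : (((u.a.natAbs + u.b.natAbs + u.e) * v.e + (v.a.natAbs + v.b.natAbs) * u.e : ℕ) : ℝ) /
      ((PP : ℤ) : ℝ) =
      (((u.a.natAbs + u.b.natAbs : ℕ) : ℝ) + u.e) * v.e / ((PP : ℤ) : ℝ) +
      (u.e : ℝ) * ((v.a.natAbs + v.b.natAbs : ℕ) : ℝ) / ((PP : ℤ) : ℝ) := by
    rw [← add_div]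
    push_cast
    ring
  have hfin : (((gm u v).e : ℕ) : ℝ) = ((((u.a.natAbs + u.b.natAbs + u.e) * v.e +
      (v.a.natAbs + v.b.natAbs) * u.e) / PN : ℕ) : ℝ) + 4 := by
    simp only [gm]
    rw [Nat.cast_add]
    norm_num
  rw [hfin, hmain]
  rw [h6] at h5
  refine (norm_add_le _ _).trans ((add_le_add (norm_add_le _ _) hround).trans ?_)
  linarith

theorem In_mulI (z : ℂ) (u : CB) (hu : In z u) : In (Complex.I * z) (mulI u) := by
  rw [In_iff] at *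
  have h1 : ((PP : ℤ) : ℂ) * (Complex.I * z) - cen (mulI u) =
      Complex.I * (((PP : ℤ) : ℂ) * z - cen u) := by
    simp only [cen, mulI]
    push_cast
    ring_nf
    rw [Complex.I_sq]
    ring
  rw [h1, norm_mul, Complex.norm_I, one_mul]
  exact hu

theorem In_wk (z : ℂ) (w w' : CB) (h : In z w) (hw : wk w w' = true) : In z w' := by
  rw [In_iff] at *
  have hle : (w.a - w'.a).natAbs + (w.b - w'.b).natAbs + w.e ≤ w'.e := Nat.le_of_ble_eq_true hw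
  have h1 : ((PP : ℤ) : ℂ) * z - cen w' = (((PP : ℤ) : ℂ) * z - cen w) +
      cen ⟨w.a - w'.a, w.b - w'.b, 0⟩ := by
    simp only [cen]; push_cast; ring
  rw [h1]
  have h2 := norm_cen ⟨w.a - w'.a, w.b - w'.b, 0⟩
  have h3 : ((((w.a - w'.a).natAbs + (w.b - w'.b).natAbs + w.e : ℕ) : ℕ) : ℝ) ≤ (w'.e : ℝ) := by
    exact_mod_cast hle
  rw [Nat.cast_add] at h3
  refine (norm_add_le _ _).trans ?_
  simp only at h2
  linarith

/-- **BALL.** -/
theorem t_BALL : S_BALL :=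
  ⟨fun _ w f => fB_eq w f, In_add, In_sub, In_smul, In_divN, In_gm, In_mulI, In_wk⟩

end Pool.Agent.K1H28.AL
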